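import Pool.Agent.Run7.h135.R2Fin
import Pool.Agent.Run7.h555.C11.C

/-!
# The complete Euler product of the L-function of `y² = x³ - 4 m x² + 2 m² x`
-/

set_option autoImplicit false

open Filter Topology

namespace Run7.h26.T11

open Pool.Agent.W192.HK Pool.Agent.Run7.h135.R2 Run7.h555.C11
open Pool.Agent.Y19.QT (ap)
open NumberTheorySymbols

/-- the number of the solutions of `y² = x³ - 4 m x² + 2 m² x` modulo `p` -/
noncomputable def sol (m p : ℕ) : ℕ := Nat.card {q : ZMod p × ZMod p //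
  q.2 ^ 2 = q.1 ^ 3 - 4 * (m : ZMod p) * q.1 ^ 2 + 2 * (m : ZMod p) ^ 2 * q.1}

theorem sol_eq {m p : ℕ} (hp : p.Prime) (h5 : 5 ≤ p) :
    (ap (-270 * (m : ℤ) ^ 2) (-1512 * (m : ℤ) ^ 3) p : ℂ) = (p : ℂ) - sol m p := by
  have : Fact p.Prime := ⟨hp⟩
  have h3 : (3 : ZMod p) ≠ 0 := by
    intro h
    have h1 : ((3 : ℕ) : ZMod p) = 0 := by exact_mod_cast h
    rw [ZMod.natCast_eq_zero_iff] at h1
    have := Nat.le_of_dvd (by norm_num) h1
    omega
  unfold ap sol
  push_cast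
  congr 1
  congr 1
  refine Nat.card_congr ⟨fun q => ⟨((q.1.1 + 12 * m) / 9, q.1.2 / 27), ?_⟩,
    fun q => ⟨(9 * q.1.1 - 12 * m, 27 * q.1.2), ?_⟩, ?_, ?_⟩
  · obtain ⟨⟨x, y⟩, h⟩ := q
    simp only at h ⊢
    have h9 : (9 : ZMod p) ≠ 0 := by
      have : (9 : ZMod p) = 3 ^ 2 := by norm_num
      rw [this]; exact pow_ne_zero 2 h3
    have h27 : (27 : ZMod p) ≠ 0 := by
      have : (27 : ZMod p) = 3 ^ 3 := by norm_num
      rw [this]; exact pow_ne_zero 3 h3
    field_simp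
    linear_combination 729 * h
  · obtain ⟨⟨x, y⟩, h⟩ := q
    simp only at h ⊢
    linear_combination 729 * h
  · rintro ⟨⟨x, y⟩, h⟩
    have h9 : (9 : ZMod p) ≠ 0 := by
      have : (9 : ZMod p) = 3 ^ 2 := by norm_num
      rw [this]; exact pow_ne_zero 2 h3
    have h27 : (27 : ZMod p) ≠ 0 := by
      have : (27 : ZMod p) = 3 ^ 3 := by norm_num
      rw [this]; exact pow_ne_zero 3 h3
    refine Subtype.ext (Prod.ext ?_ ?_)
    · simp only
      field_simp
      ring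
    · simp only
      field_simp
  · rintro ⟨⟨x, y⟩, h⟩
    have h9 : (9 : ZMod p) ≠ 0 := by
      have : (9 : ZMod p) = 3 ^ 2 := by norm_num
      rw [this]; exact pow_ne_zero 2 h3
    have h27 : (27 : ZMod p) ≠ 0 := by
      have : (27 : ZMod p) = 3 ^ 3 := by norm_num
      rw [this]; exact pow_ne_zero 3 h3
    refine Subtype.ext (Prod.ext ?_ ?_)
    · simp only
      field_simp
      ring
    · simp only
      field_simp

theorem bc_three' {m k : ℕ} (hm : m % 2 = 1) (hk : k % 2 = (m + 1) / 2 % 2) :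
    bc (th m k) 3 = -2 * (((-1 : ℤ) ^ k * J(((3 : ℕ) : ℤ) | m) : ℤ) : ℂ) := by
  have hp : Nat.Prime 3 := by norm_num
  obtain ⟨b1, -⟩ := bc_split (th_CMul (m := m) k) hp nR_three (sp_cj_ne hp (by norm_num) nR_three)
  have hc : cj (mk 1 1) = mk 1 (-1) := by
    apply RR_ext <;> simp
  have e1 : ep (mk 1 1) = -1 := by
    unfold ep
    rw [cX_mk, cY_mk]
    decide
  have e2 : ep (mk 1 (-1)) = -1 := by
    unfold ep
    rw [cX_mk, cY_mk]
    decide
  have e3 : kap (mk 1 1) = -1 := by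
    unfold kap
    rw [cY_mk]
    decide
  have e4 : kap (mk 1 (-1)) = -1 := by
    unfold kap
    rw [cY_mk]
    decide
  have e5 : nR (mk 1 (-1)) = (3 : ℕ) := by
    rw [nR_mk]
    norm_num
  rw [b1, th_sp, th_sp, hc]
  unfold thv
  rw [e1, e2, e3, e4, nR_three, e5, mk_coe, mk_coe]
  push_cast
  ring

theorem sol_three {m : ℕ} (h : ¬ 3 ∣ m) : sol m 3 = if m % 3 = 1 then 1 else 5 := by
  have h1 : m % 3 = 1 ∨ m % 3 = 2 := by omega
  have e : (m : ZMod 3) = ((m % 3 : ℕ) : ZMod 3) := by simp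
  unfold sol
  rw [e]
  rcases h1 with h1 | h1
  · rw [h1, if_pos rfl, Nat.card_eq_fintype_card]
    decide
  · rw [h1, if_neg (by norm_num), Nat.card_eq_fintype_card]
    decide

theorem bc_three_sol {m k : ℕ} (hm : m % 2 = 1) (hk : k % 2 = (m + 1) / 2 % 2) (h : ¬ 3 ∣ m) :
    bc (th m k) 3 = (3 : ℂ) - sol m 3 := by
  rw [bc_three' hm hk, sol_three h]
  have hmo : Odd m := Nat.odd_iff.2 hm
  have h1 : m % 3 = 1 ∨ m % 3 = 2 := by omega
  have hJ : J((m : ℤ) | 3) = if m % 3 = 1 then 1 else -1 := by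
    rw [jacobiSym.mod_left]
    have : ((m : ℤ) % (3 : ℕ)) = ((m % 3 : ℕ) : ℤ) := by push_cast; rfl
    rw [this]
    rcases h1 with h1 | h1
    · rw [h1, if_pos rfl]
      decide +kernel
    · rw [h1, if_neg (by norm_num)]
      decide +kernel
  have hk' : (-1 : ℤ) ^ k * J(((3 : ℕ) : ℤ) | m) = - J((m : ℤ) | 3) := by
    have h4 : m % 4 = 1 ∨ m % 4 = 3 := by omega
    rcases h4 with h4 | h4
    · have : Odd k := Nat.odd_iff.2 (by omega)
      rw [this.neg_one_pow, jacobiSym.quadratic_reciprocity_one_mod_four h4 (by decide)]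
      ring
    · have : Even k := Nat.even_iff.2 (by omega)
      rw [this.neg_one_pow, jacobiSym.quadratic_reciprocity_three_mod_four (by norm_num) h4]
      ring
  rw [hk', hJ]
  rcases h1 with h1 | h1
  · rw [h1]
    norm_num
  · rw [h1]
    norm_num

/-- the coefficients at the primes that do not divide `2 m` -/
theorem bc_sol {m k p : ℕ} (hp : p.Prime) (hm : m % 2 = 1) (hk : k % 2 = (m + 1) / 2 % 2)
    (h : ¬ p ∣ 2 * m) : bc (th m k) p = (p : ℂ) - sol m p := by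
  have h2 : p ≠ 2 := fun h2 => h (h2 ▸ dvd_mul_right _ _)
  by_cases h3 : p = 3
  · subst h3
    exact_mod_cast bc_three_sol hm hk fun h3 => h (h3.mul_left _)
  · have h5 : 5 ≤ p := by
      have a1 := hp.two_le
      have a4 : p ≠ 4 := by
        rintro rfl
        norm_num at hp
      omega
    rw [bc_prime hp hm hk h5, sol_eq hp h5]

/-- **the Euler product** -/
theorem euler {m k : ℕ} (hm : m % 2 = 1) (hk : k % 2 = (m + 1) / 2 % 2) {s A : ℂ}
    (h : HasSum (fun I : Ideal RR => th m k I * (nm I : ℂ) ^ (-s)) A) :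
    HasProd (fun p : Nat.Primes => if (p : ℕ) ∣ 2 * m then (1 : ℂ) else
      (1 - (((p : ℕ) : ℂ) - sol m p) * ((p : ℕ) : ℂ) ^ (-s) + ((p : ℕ) : ℂ) ^ (1 - 2 * s))⁻¹) A := by
  have hm0 : m ≠ 0 := by omega
  refine (prod_th hm0 h).congr_fun fun p => ?_
  have hp := p.2
  split_ifs with h1
  · have h2 := bc_bad' (k := k) hm0 hp h1 0
    rw [zero_add, pow_one] at h2
    rw [h2]
    unfold ec
    rw [if_pos h1]
    simp
  · rw [bc_sol hp hm hk h1]
    unfold ec
    rw [if_neg h1]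
    have hp0 : ((p : ℕ) : ℂ) ≠ 0 := by exact_mod_cast hp.ne_zero
    have e : ((p : ℕ) : ℂ) ^ (1 - 2 * s) = ((p : ℕ) : ℂ) * (((p : ℕ) : ℂ) ^ (-s)) ^ 2 := by
      rw [sub_eq_add_neg, Complex.cpow_add _ _ hp0, Complex.cpow_one, ← Complex.cpow_nat_mul]
      congr 2
      push_cast
      ring
    rw [e]

end Run7.h26.T11
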